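import Pool.Agent.Y60.DCF.Defs
import Pool.Agent.Y60.DC.ClsC

/-!
# Homomorphisms in the class `Step p K`
-/

set_option autoImplicit false

open TensorProduct

namespace Pool.Agent.Y60.DCF

open Pool.Agent.Y60.DC
open Pool.Agent.H391R2 Pool.Agent.H391R2.T4
open Pool.Agent.TH15.IGP (StepSol Lim)

section ring

variable {p : ℕ} [Fact p.Prime]

theorem connected_iff {R : Type} [Ring R] [Algebra (ZMod p) R] [StarRing R] (b : R) :
    Connected p b ↔ ConnSome p b := by
  constructor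
  · rintro ⟨A, iA, jA, v, hv, hu⟩
    obtain ⟨u, hu⟩ := hu
    refine ⟨A, iA, jA, v, (u⁻¹).val, hv, ?_, ?_⟩
    · change (invo p v + emb p A b * v) * _ = 1
      rw [← hu, Units.mul_inv]
    · change _ * (invo p v + emb p A b * v) = 1
      rw [← hu, Units.inv_mul]
  · rintro ⟨A, iA, jA, v, y, hv, h1, h2⟩
    exact ⟨A, iA, jA, v, hv, ⟨⟨_, y, h1, h2⟩, rfl⟩⟩

section u0

variable {R : Type} [Ring R] [Algebra (ZMod p) R] [StarRing R] [Finite R]
  (h1 : ∃ z : R, z + star z = 1) {N : Type} [Group N] {ι : N →* R}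

theorem exists_e (h : IsU0 p R ι) : ∃ e : unitary0 p R h1 ≃* N,
    ∀ x, ι (e x) = ((x : unitary R) : R) := by
  obtain ⟨hi, hr⟩ := h
  have hm : ∀ n, ι n ∈ unitary R ∧ ConnSome p (ι n) := fun n => by
    have h2 := (hr (ι n)).1 ⟨n, rfl⟩
    exact ⟨h2.1, (connected_iff _).1 h2.2⟩
  let f : N →* unitary0 p R h1 :=
    { toFun := fun n => ⟨⟨ι n, (hm n).1⟩, (hm n).2⟩
      map_one' := Subtype.ext (Subtype.ext (map_one ι))
      map_mul' := fun a b => Subtype.ext (Subtype.ext (map_mul ι a b)) }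
  have hf : Function.Bijective f := by
    constructor
    · intro a b hab
      apply hi
      exact congrArg (fun x : unitary0 p R h1 => ((x : unitary R) : R)) hab
    · intro x
      obtain ⟨n, hn⟩ := (hr ((x : unitary R) : R)).2 ⟨(x : unitary R).2, (connected_iff _).2 x.2⟩
      exact ⟨n, Subtype.ext (Subtype.ext hn)⟩
  let E := MulEquiv.ofBijective f hf
  refine ⟨E.symm, fun x => ?_⟩
  have h3 : E (E.symm x) = x := E.apply_symm_apply x
  exact congrArg (fun x : unitary0 p R h1 => ((x : unitary R) : R)) h3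

end u0

theorem UnitaryStep.old {W W' : Type} [Group W] [Group W'] {π : W' →* W}
    (h : UnitaryStep p π) : IsUnitary p π := by
  obtain ⟨R, iR, jR, sR, ρ, ι, s, ⟨fR, h1⟩, hρ, hι, hs, hc⟩ := h
  obtain ⟨e, he⟩ := exists_e h1 hι
  refine ⟨R, iR, jR, sR, fR, h1, ρ, π.ker.subtype.comp e.toMonoidHom, s, hρ, ?_, ?_, hs, ?_⟩
  · exact Subtype.val_injective.comp e.injective
  · ext x
    constructor
    · rintro ⟨y, rfl⟩
      exact (e y).2
    · intro hx
      refine ⟨e.symm ⟨x, hx⟩, ?_⟩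
      change ((e (e.symm ⟨x, hx⟩) : π.ker) : W') = x
      rw [e.apply_symm_apply]
  · intro w x y hxy
    have hk : s w * (e x : W') * (s w)⁻¹ ∈ π.ker :=
      (MonoidHom.normal_ker π).conj_mem _ (e x).2 _
    have h2 := hc w (e x) ⟨_, hk⟩ rfl
    have h3 : e y = ⟨_, hk⟩ := by
      apply hι.1
      rw [h2, he, he, hxy]
    change s w * (e x : W') = (e y : W') * s w
    rw [h3, inv_mul_cancel_right]

theorem UnitsStep.old {W W' : Type} [Group W] [Group W'] {π : W' →* W}
    (h : UnitsStep p π) : IsUnits p π := by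
  obtain ⟨A, iA, jA, ρ, ι, s, fA, hs, hc⟩ := h
  refine ⟨A, iA, jA, fA, ρ, π.ker.subtype.comp ι.symm.toMonoidHom, s, ?_, ?_, hs, ?_⟩
  · exact Subtype.val_injective.comp ι.symm.injective
  · ext x
    constructor
    · rintro ⟨y, rfl⟩
      exact (ι.symm y).2
    · intro hx
      refine ⟨ι ⟨x, hx⟩, ?_⟩
      change ((ι.symm (ι ⟨x, hx⟩) : π.ker) : W') = x
      rw [ι.symm_apply_apply]
  · intro w x y hxy
    have hk : s w * (ι.symm x : W') * (s w)⁻¹ ∈ π.ker :=
      (MonoidHom.normal_ker π).conj_mem _ (ι.symm x).2 _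
    have h2 : (ι ⟨_, hk⟩ : A) = ρ w (ι (ι.symm x) : A) := hc w (ι.symm x) ⟨_, hk⟩ rfl
    have h3 : ι.symm y = ⟨_, hk⟩ := by
      apply ι.injective
      apply Units.ext
      rw [h2, ι.apply_symm_apply, ι.apply_symm_apply, hxy]
    change s w * (ι.symm x : W') = (ι.symm y : W') * s w
    rw [h3, inv_mul_cancel_right]

theorem PowerStep.old {A : Type} [Group A] {W W' : Type} [Group W] [Group W'] {π : W' →* W}
    (h : PowerStep A π) : IsAutPower A π := by
  obtain ⟨k, ψ, ι, s, hs, hc⟩ := h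
  refine ⟨k, ψ, π.ker.subtype.comp ι.symm.toMonoidHom, s, ?_, ?_, hs, ?_⟩
  · exact Subtype.val_injective.comp ι.symm.injective
  · ext x
    constructor
    · rintro ⟨y, rfl⟩
      exact (ι.symm y).2
    · intro hx
      refine ⟨ι ⟨x, hx⟩, ?_⟩
      change ((ι.symm (ι ⟨x, hx⟩) : π.ker) : W') = x
      rw [ι.symm_apply_apply]
  · intro w x
    have hk : s w * (ι.symm x : W') * (s w)⁻¹ ∈ π.ker :=
      (MonoidHom.normal_ker π).conj_mem _ (ι.symm x).2 _
    have h2 : ι ⟨_, hk⟩ = fun i => (ψ w).left i (ι (ι.symm x) ((ψ w).right⁻¹ i)) :=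
      hc w (ι.symm x) ⟨_, hk⟩ rfl
    rw [ι.apply_symm_apply] at h2
    have h3 : ι.symm (fun i => (ψ w).left i (x ((ψ w).right⁻¹ i))) = ⟨_, hk⟩ := by
      rw [← h2, ι.symm_apply_apply]
    change s w * (ι.symm x : W') =
      (ι.symm (fun i => (ψ w).left i (x ((ψ w).right⁻¹ i))) : W') * s w
    rw [h3, inv_mul_cancel_right]

theorem IsClassical.old {T : Type} [Group T] (h : IsClassical p T) :
    Pool.Agent.Y60.DC.IsClassical p T := by
  obtain ⟨R, iR, jR, sR, N, iN, ι, π, C, iC, c, ρ, ⟨fR, h1⟩, hι, hπ, ⟨hc, hT⟩, hρ, hcπ⟩ := h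
  obtain ⟨e, he⟩ := exists_e h1 hι
  refine ⟨R, iR, jR, sR, fR, h1, π.comp e.toMonoidHom, C, iC, c, ρ, hπ.comp e.surjective, hc, hT,
    hρ, fun x u v huv => ?_⟩
  exact hcπ x (e u) (e v) (by rw [he, he, huv])

theorem center_bot {T : Type} [Group T] (hs : IsSimpleGroup T) (h : ∃ a b : T, a * b ≠ b * a) :
    Subgroup.center T = ⊥ := by
  rcases hs.eq_bot_or_eq_top_of_normal (Subgroup.center T) inferInstance with h1 | h1
  · exact h1
  · exfalso
    obtain ⟨a, b, hab⟩ := h
    apply hab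
    have h2 : b ∈ Subgroup.center T := by
      rw [h1]
      exact Subgroup.mem_top _
    exact Subgroup.mem_center_iff.1 h2 a

theorem finite_of_card_pow {F : Type} {p k : ℕ} (hp : p.Prime) (h : Nat.card F = p ^ k) :
    Finite F := by
  apply Nat.finite_of_card_ne_zero
  rw [h]
  exact pow_ne_zero _ hp.ne_zero

theorem Factor.old [hp : Fact p.Prime] (T : Type) [Group T] (h : Factor p T) : FacC p T := by
  rcases h with h | ⟨F, iF, k, h1, h2, h3, ⟨f⟩⟩ | ⟨F, iF, k, n, h1, h2, h3, h4, ⟨f⟩⟩ |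
    ⟨F, iF, k, n, h1, h2, h3, ⟨f⟩⟩ | ⟨h1, h2, h3⟩
  · exact Or.inl (Or.inl (Or.inl h))
  · exact Or.inl (Or.inl (Or.inr (Or.inl ⟨F, iF, k, h1, h2, h3, ⟨f⟩⟩)))
  · have hfin : Finite F := finite_of_card_pow hp.out h1
    have hft : Fintype F := Fintype.ofFinite F
    have hchar : CharP F p := charP_of_card_eq_prime_pow (f := k) (by
      rw [← Nat.card_eq_fintype_card, h1])
    refine Or.inl (Or.inl (Or.inr (Or.inr ⟨F, iF, hfin, hchar, n, h3, ?_, ⟨f⟩⟩)))
    rw [h1]
    exact h4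
  · have hfin : Finite F := finite_of_card_pow hp.out h1
    exact Or.inl (Or.inr ⟨F, iF, hfin, n, k, h1, h3, ⟨f⟩⟩)
  · exact Or.inr ⟨h1, center_bot h1 h2, h3.old⟩

end ring

/-- Monotonicity. -/
theorem compIn_mono {S S' : ∀ (T : Type) [Group T], Prop}
    (hS : ∀ (T : Type) [Group T], S T → S' T) {N : Type} [Group N] (h : CompIn S N) :
    CompIn S' N := by
  induction h with
  | one N h => exact CompIn.one N h
  | ext N M hM hq ih => exact CompIn.ext N M ih (hS _ hq)

/-- From the new class to the old class. -/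
theorem Step.old {p : ℕ} [Fact p.Prime] {K : Type} [Field K] {W W' : Type} [Group W] [Group W']
    {π : W' →* W} (h : Step p K π) : ClsC p K π := by
  induction h with
  | base π h => exact ClsC.base π h
  | kernel π hs hfin h =>
    exact ClsC.fac π hs hfin (compIn_mono (fun T _ h => Factor.old T h) h)
  | units π h => exact ClsC.units π h.old
  | unitary π h => exact ClsC.unitary π h.old
  | sl2 π F hF h => exact ClsC.sl2 π F hF h.old
  | sln π F n hn hc h => exact ClsC.sln π F n hn hc h.old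
  | sp π F n hn h => exact ClsC.sp π F n hn h.old
  | comp π q hp hq ihp ihq => exact ClsC.comp π q ihp ihq
  | quot π q hq hpq ih => exact ClsC.quot π q hq ih

end Pool.Agent.Y60.DCF
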