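import Pool.Agent.TH444.TW.ClsDef
import Pool.Agent.Y60.DC.Def

/-!
# Unitary groups of finite rings of characteristic `p`, and a class of homomorphisms of groups

* `Connected p b`: the element `b` of the ring with involution `R` lies in the connected component
  of `1` in the unitary group of `R`.
* `IsU0 p R ι`: the group `N` is identified by `ι` with the group `U⁰(R)` of all unitary elements
  of `R` which are connected to `1`. Examples: `GL_n(q)` and all unit groups of finite rings `A`
  (`R = A × Aᵒᵖ`), `Sp_2n(q)` (`R` = the matrices of size `2n` over `F_q` with the symplectic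
  involution).
* `Factor p T`: the simple groups `T` which are allowed as composition factors of kernels.
* `Step p K`: the class of homomorphisms.
-/

set_option autoImplicit false

open TensorProduct
open Pool.Agent.H391R2 (Wr)
open Pool.Agent.TH444.TW (Cls)
open Pool.Agent.Y60.DC (CompIn)

namespace Pool.Agent.Y60.DCF

/-! ### The connected unitary group of a ring with involution -/

section ring

variable (p : ℕ) [Fact p.Prime]

/-- The tensor product `A ⊗ R` over the field with `p` elements, `A` a field of characteristic `p`
and `R` a ring of characteristic `p`. -/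
def Tens (A R : Type) [Field A] [Algebra (ZMod p) A] [Ring R] [Algebra (ZMod p) R] : Type :=
  A ⊗[ZMod p] R

/-- `A ⊗ R` is a ring (the ring structure of Mathlib). -/
noncomputable instance instRingTens (A R : Type) [Field A] [Algebra (ZMod p) A] [Ring R]
    [Algebra (ZMod p) R] : Ring (Tens p A R) :=
  (Algebra.TensorProduct.instRing : Ring (A ⊗[ZMod p] R))

/-- The element `1 ⊗ b` of `A ⊗ R`. -/
noncomputable def emb (A : Type) {R : Type} [Field A] [Algebra (ZMod p) A] [Ring R]
    [Algebra (ZMod p) R] (b : R) : Tens p A R :=
  (1 : A) ⊗ₜ[ZMod p] b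

/-- The involution `*` of `R` as a linear map over the field with `p` elements. -/
noncomputable def starLin (R : Type) [Ring R] [Algebra (ZMod p) R] [StarRing R] :
    R →ₗ[ZMod p] R :=
  AddMonoidHom.toZModLinearMap p (starAddEquiv : R ≃+ R).toAddMonoidHom

/-- The map `a ⊗ r ↦ a ⊗ r*` of `A ⊗ R`. -/
noncomputable def invo {A R : Type} [Field A] [Algebra (ZMod p) A] [Ring R]
    [Algebra (ZMod p) R] [StarRing R] (x : Tens p A R) : Tens p A R :=
  LinearMap.baseChange A (starLin p R) x

/-- For some field `A` of characteristic `p` there is an element `v` of `A ⊗ R` such that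
`v + v* = 1` and `v* + b v` is a unit. For a unitary element `b` this says that `b` belongs to the
connected component of `1` of the unitary group of `R`, an algebraic group over the field with `p`
elements (if `v*` is a unit too then `y = v (v*)⁻¹` is unitary, and `1 + y` and `1 + b y` are units:
both `y` and `b y` are Cayley transforms). -/
def Connected {R : Type} [Ring R] [Algebra (ZMod p) R] [StarRing R] (b : R) : Prop :=
  ∃ (A : Type) (_ : Field A) (_ : Algebra (ZMod p) A) (v : Tens p A R),
    v + invo p v = 1 ∧ IsUnit (invo p v + emb p A b * v)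

/-- `ι` is an isomorphism of the group `N` with the group `U⁰(R)` of all elements `b` of `R` such
that `b b* = b* b = 1` and `b` is connected to `1`. -/
def IsU0 (R : Type) [Ring R] [Algebra (ZMod p) R] [StarRing R] {N : Type} [Group N]
    (ι : N →* R) : Prop :=
  Function.Injective ι ∧ ∀ b : R, (∃ n, ι n = b) ↔ (b ∈ unitary R ∧ Connected p b)

end ring

/-- The ring with involution `R` is finite and `z + z* = 1` for some `z` in `R` (the second
condition is empty if `2` is a unit of `R`). -/
def GoodRing (R : Type) [Ring R] [StarRing R] : Prop :=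
  Finite R ∧ ∃ z : R, z + star z = 1

/-- The automorphisms `ρ w` of the ring `R` commute with the involution of `R`. -/
def StarPres {W R : Type} [Group W] [Ring R] [StarRing R] (ρ : W →* (R ≃+* R)) : Prop :=
  ∀ (w : W) (a : R), ρ w (star a) = star (ρ w a)

/-! ### Split homomorphisms and the action on the kernel -/

/-- `s` is a homomorphic section of `π`. -/
def IsSection {W W' : Type} [Group W] [Group W'] (π : W' →* W) (s : W →* W') : Prop :=
  ∀ w : W, π (s w) = w

/-- `y = (s w) x (s w)⁻¹`, for elements `x`, `y` of the kernel of `π`. -/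
def ConjTo {W W' : Type} [Group W] [Group W'] {π : W' →* W} (s : W →* W') (w : W)
    (x y : π.ker) : Prop :=
  (y : W') = s w * (x : W') * (s w)⁻¹

/-- The kernel of `π` is identified by `ι` with a subgroup of the unit group of `R`, and the action
of `s w` on the kernel is the restriction of the automorphism `ρ w` of the ring `R`. -/
def ActsBy {W W' R : Type} [Group W] [Group W'] [Ring R] {π : W' →* W} (s : W →* W')
    (ι : π.ker → R) (ρ : W →* (R ≃+* R)) : Prop :=
  ∀ (w : W) (x y : π.ker), ConjTo s w x y → ι y = ρ w (ι x)

/-- The kernel of `π : W' → W` is a group `U⁰(R)` (`R` a finite ring of characteristic `p` with an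
involution, `z + z* = 1` for some `z` in `R`; the condition is empty if `p ≠ 2`), `π` has a
homomorphic section `s`, and the action of `s w` on the kernel is the restriction of an automorphism
`ρ w` of the ring with involution `R`, where `ρ` is a homomorphism. -/
def UnitaryStep (p : ℕ) [Fact p.Prime] {W W' : Type} [Group W] [Group W'] (π : W' →* W) : Prop :=
  ∃ (R : Type) (_ : Ring R) (_ : Algebra (ZMod p) R) (_ : StarRing R) (ρ : W →* (R ≃+* R))
    (ι : π.ker →* R) (s : W →* W'),
    GoodRing R ∧ StarPres ρ ∧ IsU0 p R ι ∧ IsSection π s ∧ ActsBy s ι ρ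

/-- The kernel of `π : W' → W` is the unit group of a finite ring `A` of characteristic `p`, `π` has
a homomorphic section `s`, and the action of `s w` on the kernel is the restriction of an
automorphism `ρ w` of the ring `A`, where `ρ` is a homomorphism. -/
def UnitsStep (p : ℕ) [Fact p.Prime] {W W' : Type} [Group W] [Group W'] (π : W' →* W) : Prop :=
  ∃ (A : Type) (_ : Ring A) (_ : Algebra (ZMod p) A) (ρ : W →* (A ≃+* A)) (ι : π.ker ≃* Aˣ)
    (s : W →* W'), Finite A ∧ IsSection π s ∧ ActsBy s (fun x => (ι x : A)) ρ

/-- The automorphism `x ↦ (c_i (x_(τ⁻¹ i)))_i` of the group `A^k`, for an element `w = (c, τ)` of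
the wreath product of `Aut A` and the symmetric group of degree `k`. -/
def wact {A : Type} [Group A] {k : ℕ} (w : Wr (MulAut A) k) (x : Fin k → A) : Fin k → A :=
  fun i => w.left i (x (w.right⁻¹ i))

/-- The action of `s w` on the kernel of `π`, identified with `A^k` by `ι`, is `wact (ψ w)`. -/
def ActsWr {A : Type} [Group A] {k : ℕ} {W W' : Type} [Group W] [Group W'] {π : W' →* W}
    (s : W →* W') (ι : π.ker → (Fin k → A)) (ψ : W →* Wr (MulAut A) k) : Prop :=
  ∀ (w : W) (x y : π.ker), ConjTo s w x y → ι y = wact (ψ w) (ι x)

/-- The kernel of `π : W' → W` is isomorphic to a direct power `A^k`, `π` has a homomorphic section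
`s`, and `W` acts on the kernel through a homomorphism `ψ : W → Aut(A) ≀ S_k`: the automorphism
given by `s w` is `wact (ψ w)`. -/
def PowerStep (A : Type) [Group A] {W W' : Type} [Group W] [Group W'] (π : W' →* W) : Prop :=
  ∃ (k : ℕ) (ψ : W →* Wr (MulAut A) k) (ι : π.ker ≃* (Fin k → A)) (s : W →* W'),
    IsSection π s ∧ ActsWr s ι ψ

/-! ### The composition factors -/

/-- The homomorphism `c` is injective and `Aut T` is the semidirect product of the group of inner
automorphisms of `T` and the image of `c`. -/
def IsComplInn {C T : Type} [Group C] [Group T] (c : C →* MulAut T) : Prop :=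
  Function.Injective c ∧ IsCompl c.range (MulAut.conj : T →* MulAut T).range

/-- Let `N` be identified by `ι` with a subgroup of the unit group of `R` and `π : N → T` a
homomorphism: the automorphism `c x` of `T` is induced by the automorphism `ρ x` of the ring `R`. -/
def Induced {N T C R : Type} [Group N] [Group T] [Group C] [Ring R] (ι : N → R) (π : N →* T)
    (c : C →* MulAut T) (ρ : C →* (R ≃+* R)) : Prop :=
  ∀ (x : C) (u v : N), ι v = ρ x (ι u) → c x (π u) = π v

/-- `T` is a quotient of a group `N = U⁰(R)` (`R` a finite ring of characteristic `p` with an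
involution, `z + z* = 1` for some `z` in `R`), and there is a group `C` of automorphisms of the
ring with involution `R` which induces automorphisms of `T`; the map from `C` to `Aut T` is
injective and its image is a complement of the group of inner automorphisms of `T`. -/
def IsClassical (p : ℕ) [Fact p.Prime] (T : Type) [Group T] : Prop :=
  ∃ (R : Type) (_ : Ring R) (_ : Algebra (ZMod p) R) (_ : StarRing R) (N : Type) (_ : Group N)
    (ι : N →* R) (π : N →* T) (C : Type) (_ : Group C) (c : C →* MulAut T) (ρ : C →* (R ≃+* R)),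
    GoodRing R ∧ IsU0 p R ι ∧ Function.Surjective π ∧ IsComplInn c ∧ StarPres ρ ∧ Induced ι π c ρ

/-- The group `Sp_2n(F)`: the symplectic group of Mathlib. -/
def Sp (n : ℕ) (F : Type) [Field F] : Type := Matrix.symplecticGroup (Fin n) F

/-- `Sp_2n(F)` is a group (the group structure of Mathlib). -/
instance instGroupSp (n : ℕ) (F : Type) [Field F] : Group (Sp n F) :=
  (inferInstance : Group (Matrix.symplecticGroup (Fin n) F))

/-- `T` is isomorphic to `PSL_2(F)`, `F` a field with `p ^ k ≥ 4` elements, `k` odd if `p ≠ 2`. -/
def IsPSL2 (p : ℕ) (T : Type) [Group T] : Prop :=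
  ∃ (F : Type) (_ : Field F) (k : ℕ), 4 ≤ Nat.card F ∧ Nat.card F = p ^ k ∧ (p = 2 ∨ Odd k) ∧
    Nonempty (T ≃* Matrix.ProjectiveSpecialLinearGroup (Fin 2) F)

/-- `T` is isomorphic to `PSL_n(F)`, `F` a finite field of characteristic `p`, `n ≥ 3` prime to
`|F| - 1`. -/
def IsPSL (p : ℕ) (T : Type) [Group T] : Prop :=
  ∃ (F : Type) (_ : Field F) (k n : ℕ), Nat.card F = p ^ k ∧ 1 ≤ k ∧ 3 ≤ n ∧
    Nat.Coprime n (p ^ k - 1) ∧ Nonempty (T ≃* Matrix.ProjectiveSpecialLinearGroup (Fin n) F)

/-- `T` is isomorphic to `PSp_2n(F)`, `F` a field with `p ^ k` elements, `n ≥ 2` and `k` odd if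
`p ≠ 2`, and `n ≥ 3` if `p = 2`. -/
def IsPSp (p : ℕ) (T : Type) [Group T] : Prop :=
  ∃ (F : Type) (_ : Field F) (k n : ℕ), Nat.card F = p ^ k ∧ 1 ≤ k ∧
    ((p ≠ 2 ∧ 2 ≤ n ∧ Odd k) ∨ (p = 2 ∧ 3 ≤ n)) ∧
    Nonempty (T ≃* Sp n F ⧸ Subgroup.center (Sp n F))

/-- The composition factors which are allowed:
* groups of order `p`,
* `PSL_2(F)`, `F` a field with `p ^ k ≥ 4` elements, `k` odd if `p ≠ 2`,
* `PSL_n(F)`, `F` a finite field of characteristic `p`, `n ≥ 3` prime to `|F| - 1`,
* `PSp_2n(F)`, `F` a field with `p ^ k` elements, `n ≥ 2` and `k` odd if `p ≠ 2`, and `n ≥ 3` if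
  `p = 2`,
* all simple groups `T` which are not commutative and satisfy `IsClassical p T`. -/
def Factor (p : ℕ) [Fact p.Prime] (T : Type) [Group T] : Prop :=
  Nat.card T = p ∨ IsPSL2 p T ∨ IsPSL p T ∨ IsPSp p T ∨
  (IsSimpleGroup T ∧ (∃ a b : T, a * b ≠ b * a) ∧ IsClassical p T)

/-! ### The class of homomorphisms -/

/-- The class `Step p K` of homomorphisms of groups. -/
inductive Step (p : ℕ) [Fact p.Prime] (K : Type) [Field K] :
    ∀ {W W' : Type} [Group W] [Group W'], (W' →* W) → Prop
  /-- the class `Cls K` -/
  | base {W W' : Type} [Group W] [Group W'] (π : W' →* W) (h : Cls K π) : Step p K π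
  /-- all epimorphisms (split or not) with a finite kernel whose composition factors are allowed -/
  | kernel {W W' : Type} [Group W] [Group W'] (π : W' →* W) (hs : Function.Surjective π)
      (hfin : Finite π.ker) (h : CompIn (Factor p) π.ker) : Step p K π
  /-- split, the kernel is the unit group of a finite ring -/
  | units {W W' : Type} [Group W] [Group W'] (π : W' →* W) (h : UnitsStep p π) : Step p K π
  /-- split, the kernel is the connected unitary group of a finite ring -/
  | unitary {W W' : Type} [Group W] [Group W'] (π : W' →* W) (h : UnitaryStep p π) : Step p K π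
  /-- split, the kernel is a power of `SL_2(F)`, any action through the wreath product -/
  | sl2 {W W' : Type} [Group W] [Group W'] (π : W' →* W) (F : Type) [Field F] [Finite F]
      [CharP F p] (hF : 4 ≤ Nat.card F) (h : PowerStep (Matrix.SpecialLinearGroup (Fin 2) F) π) :
      Step p K π
  /-- split, the kernel is a power of `SL_n(F)`, `n ≥ 3` prime to `|F| - 1` -/
  | sln {W W' : Type} [Group W] [Group W'] (π : W' →* W) (F : Type) [Field F] [Finite F]
      [CharP F p] (n : ℕ) (hn : 3 ≤ n) (hc : Nat.Coprime n (Nat.card F - 1))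
      (h : PowerStep (Matrix.SpecialLinearGroup (Fin n) F) π) : Step p K π
  /-- split, the kernel is a power of `Sp_2n(F)`, `n ≥ 3`, or `n ≥ 2` and `p ≠ 2` -/
  | sp {W W' : Type} [Group W] [Group W'] (π : W' →* W) (F : Type) [Field F] [Finite F]
      [CharP F p] (n : ℕ) (hn : (p ≠ 2 ∧ 2 ≤ n) ∨ 3 ≤ n) (h : PowerStep (Sp n F) π) :
      Step p K π
  /-- compositions -/
  | comp {W W' W'' : Type} [Group W] [Group W'] [Group W''] (π : W' →* W) (q : W'' →* W')
      (hp : Step p K π) (hq : Step p K q) : Step p K (π.comp q)
  /-- quotients -/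
  | quot {W W' W'' : Type} [Group W] [Group W'] [Group W''] (π : W' →* W) (q : W'' →* W')
      (hq : Function.Surjective q) (hpq : Step p K (π.comp q)) : Step p K π

end Pool.Agent.Y60.DCF
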